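import Pool.Agent.Run7.h780.TW.Eqv
import Pool.Agent.Run7.h780.TW.Stm5

/-!
# Zero-cycles over `ℚ` on products of elliptic curves

Let `X = E₁ × ⋯ × E_r` be a product of elliptic curves over `ℚ`.  The kernel of the Abel-Jacobi map on the
zero-cycles of `X` over `ℚ` consists, up to torsion, of the zero-cycles of degree zero and with sum zero, and
the question (`i = dim X`) predicts that they are torsion, or equivalently (by the norm from a finite
extension) that they are rationally equivalent to zero over `ℚ̄`.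

We find isotropic systems which are stable under the Galois group of `ℚ`.  Let `e₁, e₂, e₃` be rational numbers
and let `P₁` be any rational point of `E : y² = (x - e₁) (x - e₂) (x - e₃)`.  There are subgroups `Λ_F` of the groups
`F(ℚ̄)` for all the elliptic curves `F` over `ℚ̄`, of infinite rank, such that `σ(Λ_F) = Λ_{σ F}` for all the
automorphisms `σ` of `ℚ̄`, `P₁ ∈ Λ_E`, and all the zero-cycles of degree zero and with sum zero on the products of
these curves which are supported on the products of the `Λ_F` are rationally equivalent to zero.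

So for the curves `F` over `ℚ` the group `Λ_F` is stable under the Galois group, and every point `x` of
`Λ_{E₁} × ⋯ × Λ_{E_r}` belongs to a zero-cycle over `ℚ` on `X` (a closed point of `X`) which is supported on
`Λ_{E₁} × ⋯ × Λ_{E_r}`.  The combinations of these closed points of degree zero and with sum zero are torsion in
the Chow group of `X` over `ℚ`, and for the products of `E` with itself the rational points `n P₁` are among
these closed points.

The system depends on the parameter `X₁ = (e₃ - e₁) / (x - e₁)`, where `x` is the abscissa of a multiple of `P₁`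
which is close to the origin at `2`; it is a rational number, and the construction commutes with the
automorphisms which fix it.
-/

set_option autoImplicit false

namespace Pool.Agent.Results.MP_e28333_ag.GaloisStableSystems

open Pool.Agent.Run7.h780.ZS

open scoped Classical in
theorem result (e₁ e₂ e₃ : ℚ) (sum : e₁ + e₂ + e₃ = 0) (h12 : e₁ ≠ e₂) (h13 : e₁ ≠ e₃)
    (h23 : e₂ ≠ e₃) (a₁ b₁ : AlgebraicClosure ℚ)
    (ha : a₁ = ((e₁ * e₂ + e₁ * e₃ + e₂ * e₃ : ℚ) : AlgebraicClosure ℚ))
    (hb : b₁ = ((-(e₁ * e₂ * e₃) : ℚ) : AlgebraicClosure ℚ)) (P₁ : Pt a₁ b₁)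
    (rational : ∀ z ∈ coords P₁, ∃ x y : ℚ, z = ((x : AlgebraicClosure ℚ), (y : AlgebraicClosure ℚ))) :
    ∃ Λ : (a b : AlgebraicClosure ℚ) → AddSubgroup (Pt a b), IsotropicSystem Λ ∧ P₁ ∈ Λ a₁ b₁ ∧
      ∀ (σ : AlgebraicClosure ℚ ≃+* AlgebraicClosure ℚ) (a b : AlgebraicClosure ℚ) (P : Pt a b)
        (Q : Pt (σ a) (σ b)), coords Q = (coords P).map (Prod.map σ σ) →
          (P ∈ Λ a b ↔ Q ∈ Λ (σ a) (σ b)) := by
  subst ha hb
  have hc : ∀ (σ : AlgebraicClosure ℚ ≃+* AlgebraicClosure ℚ) (q : ℚ),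
      σ (q : AlgebraicClosure ℚ) = q := fun σ q => map_ratCast σ q
  have fac : ∀ x : AlgebraicClosure ℚ, x ^ 3 +
      ((e₁ * e₂ + e₁ * e₃ + e₂ * e₃ : ℚ) : AlgebraicClosure ℚ) * x +
      ((-(e₁ * e₂ * e₃) : ℚ) : AlgebraicClosure ℚ) = (x - e₁) * (x - e₂) * (x - e₃) := by
    intro x
    have s : (e₁ : AlgebraicClosure ℚ) + e₂ + e₃ = 0 := by exact_mod_cast sum
    push_cast
    linear_combination x ^ 2 * s
  have disc : 4 * ((e₁ * e₂ + e₁ * e₃ + e₂ * e₃ : ℚ) : AlgebraicClosure ℚ) ^ 3 +
      27 * ((-(e₁ * e₂ * e₃) : ℚ) : AlgebraicClosure ℚ) ^ 2 ≠ 0 := by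
    have h : 4 * (e₁ * e₂ + e₁ * e₃ + e₂ * e₃) ^ 3 + 27 * (-(e₁ * e₂ * e₃)) ^ 2 =
        -((e₁ - e₂) * (e₁ - e₃) * (e₂ - e₃)) ^ 2 := by
      have h3 : e₃ = -e₁ - e₂ := by linear_combination sum
      rw [h3]; ring
    have h' : 4 * (e₁ * e₂ + e₁ * e₃ + e₂ * e₃) ^ 3 + 27 * (-(e₁ * e₂ * e₃)) ^ 2 ≠ 0 := by
      rw [h]
      exact neg_ne_zero.2 (pow_ne_zero _ (mul_ne_zero (mul_ne_zero (sub_ne_zero.2 h12)
        (sub_ne_zero.2 h13)) (sub_ne_zero.2 h23)))
    exact_mod_cast h'
  obtain ⟨Λ, s1, p1, hg⟩ := Pool.Agent.Run7.h780.TW.equivariant (mul_ne_zero two_ne_zero disc) P₁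
  refine ⟨Λ, ⟨fun a b h => s1.1 a b (mul_ne_zero two_ne_zero h), s1.2.1,
      fun r a b h => s1.2.2 r a b fun i => mul_ne_zero two_ne_zero (h i)⟩, p1, fun σ => ?_⟩
  refine hg σ (fun e he => ?_) ?_
  · rw [fac] at he
    rcases mul_eq_zero.1 he with he | he
    · rcases mul_eq_zero.1 he with he | he
      · rw [sub_eq_zero.1 he]; exact hc σ _
      · rw [sub_eq_zero.1 he]; exact hc σ _
    · rw [sub_eq_zero.1 he]; exact hc σ _
  · change (coords P₁).map (Prod.map σ σ) = coords P₁
    rcases h : coords P₁ with _ | z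
    · rfl
    · obtain ⟨x, y, rfl⟩ := rational z (by rw [h]; rfl)
      change some (σ (x : AlgebraicClosure ℚ), σ (y : AlgebraicClosure ℚ)) = _
      rw [hc, hc]

end Pool.Agent.Results.MP_e28333_ag.GaloisStableSystems
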