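import Pool.Agent.Run7.h659.HO3

/-!
# The Abel-Jacobi map on specializations of cycles at rational points of short windows

Let `X → S` be a smooth projective family over an open subset `S` of the projective line over `ℚ` (or over a number field
`L ⊂ ℂ`) which contains `z = 0`, and let `Z_1, …, Z_m` be cycles of codimension `i` on `X` whose restrictions to the fibres
are homologous to zero. They define an extension `0 → ℍ → 𝔼 → ℚ(0) ^ m → 0` of variations of mixed Hodge structure,
`ℍ = R^(2 i - 1) f_* ℚ(i)`, of weight `-1`. The fibre at `z` of its class is the collection of the Abel-Jacobi images of the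
cycles `Z_j(z)` in `J^i(X_z) ⊗ ℚ`; a combination `∑ a_j Z_j(z)` is in the kernel if and only if it has a lift to a
rational vector of the fibre `𝔼_z` which is in the step `F^0` of the Hodge filtration.

Choose sections over `L` of the de Rham bundle of `𝔼`, regular near `0`, the sections with indices in `J` spanning `F^0`, and
a flat rational basis near `0`. The coordinates of the sections form a matrix `P(z) = C Z(z)`, where `Z` is the fundamental
matrix at `0` of the Gauss-Manin connection `f Z' = Z A` of `𝔼`, and `C` is invertible. The entries of `Z` and of its inverse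
are G-functions (André; `𝔼` is of geometric origin). The monodromy group `Γ` of `𝔼` preserves the relations over `ℂ[z]` between
the entries of `P(z)`, it is rational, and it acts trivially on the quotient `ℚ(0) ^ m`, whose coordinates are those with
the indices `q_1, …, q_m`. As the weight of `ℍ` is negative, `F^0` contains no real vector of `ℍ` except zero.

We prove: let `V` be a finite-dimensional `ℚ`-space of real numbers, for instance `V = ℚ`. In each window `[N, N + N ^ c]`, for
all integers `t` but at most `M` (`c` and `M` depend only on the family and the dimension of `V`), the vectors over `V` of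
`F^0` at `1 / t` are invariant under `Γ`. So the kernel of the Abel-Jacobi map, tensored with `V`, on the group
generated by the cycles `Z_j(1 / t)` of the variety `X_(1/t)` over `ℚ` is contained in the kernel of the map which
associates to a combination of the cycles its topological invariant in `H^1(Γ, ℍ ⊗ V)`. If this map is injective on the
combinations of the `Z_j`, the Abel-Jacobi map is injective on the group generated by the `Z_j(1 / t)`, up to torsion.

The same is true for the extensions by variations `ℍ` of all negative weights (higher Chow groups and regulators).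
-/

set_option autoImplicit false

open PowerSeries

namespace Pool.Agent.Results.MP_e28333_ag.NormalFunctionsInWindows

/-- The arithmetic conditions in the definition of a G-function over a number field: geometric growth of the conjugates of
the coefficients and of their common denominators. -/
def GCond {L : Type} [Field L] (g : L⟦X⟧) : Prop := ∃ C : ℝ, (∀ (φ : L →+* ℂ) (m : ℕ), ‖φ (coeff m g)‖ ≤ C ^ (m + 1)) ∧
  ∀ m, ∃ d : ℕ, 0 < d ∧ (d : ℝ) ≤ C ^ (m + 1) ∧ ∀ j ≤ m, IsIntegral ℤ ((d : L) * coeff j g)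

/-- `Z` is a fundamental matrix of G-functions of the system `f Z' = Z A`, regular at `0`, and `W` is its inverse. -/
structure IsGSystem {L : Type} [Field L] {n : ℕ} (f : Polynomial L) (A : Matrix (Fin n) (Fin n) (Polynomial L))
    (Z W : Matrix (Fin n) (Fin n) L⟦X⟧) : Prop where
  regular : f.coeff 0 ≠ 0
  ode : ∀ i j, (f : L⟦X⟧) * PowerSeries.derivative L (Z i j) = ∑ k, Z i k * (A k j : L⟦X⟧)
  inverse : W * Z = 1
  gZ : ∀ i j, GCond (Z i j)
  gW : ∀ i j, GCond (W i j)

/-- the matrix of the values `Z_(i,j)(z)` -/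
noncomputable def fundamental {L : Type} [Field L] [Algebra L ℂ] {n : ℕ} (Z : Matrix (Fin n) (Fin n) L⟦X⟧) (z : ℂ) :
    Matrix (Fin n) (Fin n) ℂ :=
  Matrix.of fun i j => ∑' m : ℕ, algebraMap L ℂ (coeff m (Z i j)) * z ^ m

/-- the step `F^0` of the Hodge filtration, spanned by the columns `j ∈ J` of the matrix `P` -/
def hodge {n : ℕ} (J : Set (Fin n)) (P : Matrix (Fin n) (Fin n) ℂ) : Submodule ℂ (Fin n → ℂ) :=
  Submodule.span ℂ ((fun j i => P i j) '' J)

/-- All elements of `Γ` preserve the relations with coefficients in `ℂ[z]` between the entries of `P(z)` on the discs around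
`0` of radius at most `R`. This is true for the monodromy group: continue the relation along a loop. -/
def Monodromy {n : ℕ} (P : ℂ → Matrix (Fin n) (Fin n) ℂ) (R : ℝ) (Γ : Subgroup (GL (Fin n) ℂ)) : Prop :=
  ∀ g ∈ Γ, ∀ r : ℝ, 0 < r → r ≤ R → ∀ F : MvPolynomial (Fin n × Fin n) (Polynomial ℂ),
    (∀ z : ℂ, ‖z‖ < r → F.eval₂ (Polynomial.evalRingHom z) (fun v => P z v.1 v.2) = 0) →
    ∀ z : ℂ, ‖z‖ < r → F.eval₂ (Polynomial.evalRingHom z)
      (fun v => ((g : Matrix (Fin n) (Fin n) ℂ) * P z) v.1 v.2) = 0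

/-- The properties of the variation of mixed Hodge structure of an extension of `ℚ(0) ^ m` by a variation of negative
weight: the monodromy is rational and acts trivially on the quotient, whose coordinates have the indices `q i`, and
`F^0` contains no real vector of the subspace except zero. -/
structure IsExtension {n m : ℕ} (P : ℂ → Matrix (Fin n) (Fin n) ℂ) (R : ℝ) (J : Set (Fin n))
    (Γ : Subgroup (GL (Fin n) ℂ)) (q : Fin m → Fin n) : Prop where
  rational : ∀ g ∈ Γ, ∀ i j, ∃ a : ℚ, (g : Matrix (Fin n) (Fin n) ℂ) i j = a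
  quotient : ∀ g ∈ Γ, ∀ (v : Fin n → ℂ) (i : Fin m), (g : Matrix (Fin n) (Fin n) ℂ).mulVec v (q i) = v (q i)
  negative : ∀ z : ℂ, ‖z‖ < R → ∀ v : Fin n → ℂ, (∀ i, (v i).im = 0) → (∀ i, v (q i) = 0) → v ∈ hodge J (P z) → v = 0

/-- The kernel of the Abel-Jacobi map, tensored with `V`, on the combinations of the cycles: the `a` in `V ^ m` with a lift
in `V ^ n` which is in `F^0`. -/
def abelJacobiKernel {n m : ℕ} (V : Submodule ℚ ℂ) (q : Fin m → Fin n) (F : Submodule ℂ (Fin n → ℂ)) :
    Set (Fin m → ℂ) :=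
  {a | ∃ v : Fin n → ℂ, (∀ i, v i ∈ V) ∧ (∀ i, v (q i) = a i) ∧ v ∈ F}

/-- The kernel of the topological invariant: the `a` in `V ^ m` with a lift in `V ^ n` which is invariant under `Γ`. -/
def topologicalKernel {n m : ℕ} (V : Submodule ℚ ℂ) (q : Fin m → Fin n) (Γ : Subgroup (GL (Fin n) ℂ)) :
    Set (Fin m → ℂ) :=
  {a | ∃ v : Fin n → ℂ, (∀ i, v i ∈ V) ∧ (∀ i, v (q i) = a i) ∧
    ∀ g ∈ Γ, (g : Matrix (Fin n) (Fin n) ℂ).mulVec v = v}

open Pool.Agent.Run7.h659.HO (vals Vn relv aeval_relv deg_relv coeff_relv mem_cs cs_mul win_inv)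

/-- **The Abel-Jacobi map in windows.** -/
theorem result {L : Type} [Field L] [NumberField L] [Algebra L ℂ] {n m : ℕ} (f : Polynomial L)
    (A : Matrix (Fin n) (Fin n) (Polynomial L)) (Z W : Matrix (Fin n) (Fin n) L⟦X⟧) (h : IsGSystem f A Z W)
    (C : Matrix (Fin n) (Fin n) ℂ) (hC : C.det ≠ 0) (R : ℝ) (hR : 0 < R) (Γ : Subgroup (GL (Fin n) ℂ))
    (hΓ : Monodromy (fun z => C * fundamental Z z) R Γ) (J : Set (Fin n)) (q : Fin m → Fin n)
    (hE : IsExtension (fun z => C * fundamental Z z) R J Γ q) :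
    ∃ r : ℝ, 0 < r ∧ r ≤ R ∧ ∀ D : ℕ, ∃ M : ℕ, ∃ c : ℝ, 0 < c ∧ ∀ V : Submodule ℚ ℂ, (∀ x ∈ V, x.im = 0) →
      Module.Finite ℚ V → Module.finrank ℚ V ≤ D → ∀ N : ℕ, 1 ≤ N → ∃ S : Finset ℕ, S.card ≤ M ∧
        ∀ t : ℕ, N ≤ t → (t : ℝ) ≤ N + (N : ℝ) ^ c → t ∉ S → 1 / (t : ℝ) < r ∧
          (∀ v : Fin n → ℂ, (∀ i, v i ∈ V) → v ∈ hodge J (C * fundamental Z (1 / (t : ℂ))) →
            ∀ g ∈ Γ, (g : Matrix (Fin n) (Fin n) ℂ).mulVec v = v) ∧
          abelJacobiKernel V q (hodge J (C * fundamental Z (1 / (t : ℂ)))) ⊆ topologicalKernel V q Γ := by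
  set P : ℂ → Matrix (Fin n) (Fin n) ℂ := fun z => C * fundamental Z z with hP
  have hD : Pool.Agent.Y921.DB.DatL f (fun i j => A i j) (fun i j => Z i j) (fun i j => W i j) := by
    refine ⟨h.regular, h.ode, fun i j => ?_, h.gZ, h.gW⟩
    have h1 : (W * Z) i j = (1 : Matrix (Fin n) (Fin n) L⟦X⟧) i j := by rw [h.inverse]
    rw [Matrix.mul_apply] at h1
    rw [h1, Matrix.one_apply]
  obtain ⟨r, hr, hrR, hdet, G, hwin⟩ := win_inv hD hC hR (P := P) fun z => rfl
  refine ⟨r, hr, hrR, fun D => ?_⟩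
  obtain ⟨M, c, hc, hM⟩ := hwin 1 n D
  refine ⟨M, c, hc, fun V hVr hV hVD N hN => ?_⟩
  obtain ⟨S, hS, hS'⟩ := hM V hV hVD N hN
  refine ⟨S, hS, fun t h1 h2 h3 => ?_⟩
  obtain ⟨h4, h5⟩ := hS' (fun _ => t) (fun i j hij => absurd (Subsingleton.elim i j) hij) fun _ => ⟨h1, h2, h3⟩
  have ht : 1 / (t : ℝ) < r := h4 0
  have hz : ‖(1 / (t : ℂ))‖ < r := by rwa [norm_div, norm_one, Complex.norm_natCast]
  have hdt : (P (1 / (t : ℂ))).det ≠ 0 := hdet _ hz
  have hinv : ∀ v : Fin n → ℂ, (∀ i, v i ∈ V) → v ∈ hodge J (P (1 / (t : ℂ))) →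
      ∀ g ∈ Γ, (g : Matrix (Fin n) (Fin n) ℂ).mulVec v = v := by
    intro v hv hvF
    -- all translates of `F^0` contain the vector
    have key : ∀ g ∈ Γ, v ∈ hodge J ((g : Matrix (Fin n) (Fin n) ℂ) * P (1 / (t : ℂ))) := by
      intro g hg
      have hd : ((g : Matrix (Fin n) (Fin n) ℂ) * P (1 / (t : ℂ))).det ≠ 0 := by
        rw [Matrix.det_mul]
        exact mul_ne_zero ((Matrix.isUnit_iff_isUnit_det _).1 g.isUnit).ne_zero hdt
      refine (mem_cs hd J v).2 fun i hi => ?_
      have e1 := (mem_cs hdt J v).1 hvF i hi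
      have e2 := h5 (relv v 0 i) (deg_relv v 0 i) (coeff_relv V hv 0 i)
        ((aeval_relv v 0 i fun _ => P (1 / (t : ℂ))).trans e1) (fun _ => (g : Matrix (Fin n) (Fin n) ℂ))
        fun _ => hΓ g hg
      exact (aeval_relv v 0 i fun _ => (g : Matrix (Fin n) (Fin n) ℂ) * P (1 / (t : ℂ))).symm.trans e2
    intro g hg
    -- so `F^0` contains all translates of the vector
    have h6 : (g : Matrix (Fin n) (Fin n) ℂ).mulVec v ∈ hodge J (P (1 / (t : ℂ))) := by
      have h7 := key g⁻¹ (Γ.inv_mem hg)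
      have h8 : hodge J (((g⁻¹ : GL (Fin n) ℂ) : Matrix (Fin n) (Fin n) ℂ) * P (1 / (t : ℂ))) =
          (hodge J (P (1 / (t : ℂ)))).map (Matrix.mulVecLin ((g⁻¹ : GL (Fin n) ℂ) : Matrix (Fin n) (Fin n) ℂ)) :=
        cs_mul _ _ J
      rw [h8] at h7
      obtain ⟨w, hw, hwv⟩ := h7
      rw [← hwv, Matrix.mulVecLin_apply, Matrix.mulVec_mulVec, ← Units.val_mul, mul_inv_cancel, Units.val_one,
        Matrix.one_mulVec]
      exact hw
    have h7 := (hodge J (P (1 / (t : ℂ)))).sub_mem h6 hvF
    have h8 := hE.negative (1 / (t : ℂ)) (hz.trans_le hrR) _ (fun i => by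
      rw [Pi.sub_apply, Complex.sub_im, hVr _ (hv i), sub_zero]
      change (∑ j, (g : Matrix (Fin n) (Fin n) ℂ) i j * v j).im = 0
      rw [Complex.im_sum]
      refine Finset.sum_eq_zero fun j _ => ?_
      obtain ⟨a, ha⟩ := hE.rational g hg i j
      have e1 : ((a : ℂ)).im = 0 := Complex.ratCast_im a
      rw [ha, Complex.mul_im, hVr _ (hv j), e1, mul_zero, zero_mul, add_zero]) (fun i => by
      rw [Pi.sub_apply, hE.quotient g hg, sub_self]) h7
    exact sub_eq_zero.1 h8
  refine ⟨ht, hinv, ?_⟩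
  rintro a ⟨v, hv, hva, hvF⟩
  exact ⟨v, hv, hva, hinv v hv hvF⟩

end Pool.Agent.Results.MP_e28333_ag.NormalFunctionsInWindows
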