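import Pool.Agent.Run7.h192.AJ.Lef

/-!
# The kernel of the Abel–Jacobi map and powers of polarizations

Let `𝒱` be a class of smooth projective varieties over a field `k` (here the rational numbers) which
is closed under products and contains a curve, with Chow groups `C` (rational coefficients), a Weil
cohomology theory `W` (singular cohomology of the complex points) and Abel–Jacobi maps `AJ`
(tensored with `ℚ`). A polarization `L` of `V` is a divisor class with `deg L ^ (dim V) ≠ 0`.

For every `l` let `Q l` be a set of pairs `(n, r)` with `r + l ≤ n`, in which `r` is unbounded; for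
instance the pairs `n = 2 r - 1`, `r > l`, or the pairs `(n, ⌊log log n⌋)` with `n` large.

1. The Abel–Jacobi maps are injective on the homologically trivial cycles of dimension `l` on all
   varieties if and only if `L ^ (n - r - l) z = 0` in `CH_l(V)` for all `(n, r)` in `Q l`, all
   varieties `V` of dimension `n`, all `z` in the kernel of the Abel–Jacobi map of `CH^r(V)` and all
   polarizations `L` of `V`.
2. The Abel–Jacobi maps of all varieties are injective in all codimensions if and only if this holds
   for infinitely many `l`.

(For `n = 2 r - 1` and `l < r - 1` the operator `L ^ (n - r - l)` is beyond the range of the hard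
Lefschetz theorem: it kills the primitive part of `H^(2 r - 1)(V)`.)
-/

open Pool.Agent.H914 Pool.Agent.R903 Pool.Agent.Run7.h192.AJ

universe u v w x

namespace Pool.Agent.Results.MP_e28333_ag.PowersOfPolarizations

theorem result {k : Type u} [Field k] {𝒱 : VarClass k} {C : ChowTheory.{u, v} 𝒱}
    {W : WeilTheory.{u, v, w} C} {A : AJMap.{u, v, w, x} W} (hA : A.Formal) (hP : C.Polarized)
    (hc : ∃ c : 𝒱.Obj, c.dim = 1) (Q : ℕ → ℕ → ℕ → Prop) (h1 : ∀ l n r, Q l n r → r + l ≤ n)
    (h2 : ∀ l N, ∃ n r, N ≤ r ∧ Q l n r) :
    (∀ l, A.InjectiveInDimension l ↔ A.PowersKill l (Q l)) ∧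
    ((∀ (X : 𝒱.Obj) (i : ℕ), A.Injective X i) ↔ ∀ N, ∃ l ≥ N, A.PowersKill l (Q l)) :=
  ⟨fun l => injectiveInDimension_iff hA hP hc l (Q l) (h1 l) (h2 l),
    injective_iff_powers hA hP hc Q h1 h2⟩

end Pool.Agent.Results.MP_e28333_ag.PowersOfPolarizations
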