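import Pool.Agent.Run7.h954.RV.Torsion

/-!
# Kernels of the Abel-Jacobi maps over `ℚ` and rational varieties

`T` consists of the (integral) Abel-Jacobi maps `CH^i(X)^0 → J^i(X_ℂ)` for schemes over `ℚ`, with the well known
properties `IsAJ T` and `Chow T`; `Geometry ℚ` consists of well known facts on smooth projective varieties over
`ℚ`. Blow-ups are defined by their universal property.
-/

set_option autoImplicit false

universe u

namespace Pool.Agent.Results.MP_e28333_ag.TorsionKernels

open Pool.Agent.Run7.h954.RV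

theorem result (G : Geometry ℚ) (T : Theory.{u} ℚ) (hT : IsAJ T) (hC : Chow T) :
    -- all smooth proper varieties and codimensions; middle codimension of rational varieties
    (∀ S : Set ℕ, S.Infinite → ((∀ X : Sch ℚ, SmoothProper X → ∀ m, T.Tors m X) ↔
      ∀ n ∈ S, ∀ Y : Sch ℚ, RatVar (2 * n - 1) Y → T.Tors n Y)) ∧
    -- codimension at most `m` for all smooth proper varieties; codimension `m + 1` for rational varieties
    (∀ m : ℤ, (∀ X : Sch ℚ, SmoothProper X → ∀ b ≤ m, T.Tors b X) ↔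
      ∀ (N : ℕ) (Y : Sch ℚ), RatVar N Y → T.Tors (m + 1) Y) ∧
    -- one smooth projective variety
    (∀ X : Sch ℚ, SmoothProj X → ∀ d, Dim X d → ∀ n, d + 1 ≤ n →
      ∃ (i : X ⟶ PP ℚ (2 * n - 1)) (Y : Sch ℚ) (π : Y ⟶ PP ℚ (2 * n - 1)),
        Center i d (2 * n - 1) ∧ IsBlowUp i π ∧ RatVar (2 * n - 1) Y ∧ ((∀ m, T.Tors m X) ↔ T.Tors n Y) ∧
          ((∀ m, T.Inj m X) ↔ T.Inj n Y) ∧
          Nonempty ((T.aj n Y).ker ≃+ (∀ a : Fin (2 * n - 1 - d - 1), (T.aj (n - (a + 1)) X).ker))) := by
  refine ⟨fun S hS => ?_, fun m => ?_, fun X hX d hd n hn => ?_⟩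
  · have h := proper_iff hC (fun _ => True)
    simp only [forall_const] at h
    exact h.trans (infinite G hT.compatible_tors hS)
  · exact (proper_iff hC (· ≤ m)).trans (level G hT.compatible_tors m)
  · obtain ⟨i, Y, π, hc, hπ, hY⟩ := G.exists_rat hX hd (N := 2 * n - 1) (by omega)
    exact ⟨i, Y, π, hc, hπ, hY, middle hT.compatible_tors (by omega) hc hπ,
      middle hT.compatible (by omega) hc hπ, hT.kernel hc hπ n⟩

end Pool.Agent.Results.MP_e28333_ag.TorsionKernels
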